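import Pool.Agent.Q269.GJ.Fin
import Pool.Agent.Q269.GJ.Asm

/-!
# Jacobians of hyperelliptic curves of every genus over `k(t)`: rank zero and the conjecture of Birch and
# Swinnerton-Dyer over `k'(t)` for almost all the constant extensions `k'` of odd degree at the same time

Let `k` be a finite field of characteristic different from 2 in which `-1` is a square, `n = 2 g + 1 ≥ 3`, and let
`a 1, …, a n` be polynomials over `k` such that all the differences `a i - a j` (`i ≠ j`) have the same degree `N ≥ 1` and
the product of the differences `a i - a j`, `i < j`, is squarefree. Let `J_D` be the Jacobian of the curve of genus `g`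

`y ^ 2 = D(t) (x - a 1) ⋯ (x - a n)`

over `k(t)`, for the monic squarefree `D` prime to the differences, the quadratic twist by `D` of `J_1`.

Theorem. Let `ε > 0` and let `B` be a number. There are a positive constant `c` and a set `E` of numbers, which contains
all the odd numbers without prime divisors larger than `B`, and all the odd numbers up to a set of upper density at
most `ε`, such that for all `k`, all genera and all `a` the following holds. As the degree `m` of `D` tends to infinity,
`m + N` odd, for at least the proportion `c` of ALL these `D`, for ALL the finite extensions `k'` of `k` whose degree is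
in `E` and prime to the degrees of the prime divisors of the differences, and `K' = k'(t)`:

* every point of `J_D(K')` is the sum of a `K'`-point of order at most 2 and of twice a `K'`-point, so `J_D(K')` is finite;
* all classes in `H ^ 1 (K', J_D)` killed by a power of 2 which are trivial over the completions of `K'` at all the
  places of `K'` different from infinity are zero. In particular the 2-primary part of the Tate-Shafarevich group of
  `J_D` over `K'` is zero.

The constant `c` and the set `E` do not depend on `k`, the genus and `a`. As in the starting result for `K' = k(t)` only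
(`HyperellipticTwists`), by Tate, Milne, Kato and Trihan the whole conjecture of Birch and Swinnerton-Dyer holds for
`J_D` over all these fields `K'` (L-function not zero at the central point, the formula, the group of Tate and
Shafarevich finite of odd order), and the Brauer groups of the surfaces `y ^ 2 = D(t) ∏ (x - a i)` over all these `k'`
are finite of odd order. For instance (`B = 3`) for a positive proportion of the twists the rank is zero and the
conjecture holds in the whole tower of the fields `k_(3^i)(t)`, `i ≥ 0` (if the degrees of the prime divisors of the
differences are not divisible by 3), and in the same way for every odd prime number.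

The proof. The 2-Selmer group over `k'(t)` is described by quadratic residue symbols over `k'`. The part of order `r` for
the action of the Frobenius automorphism, `ξ` a primitive `r`-th root of unity in a finite field `F` of characteristic
two, is the kernel of a system over `F` with one unknown in `F ^ n` of sum zero for each prime factor of `D` of degree
divisible by `r`; the off-diagonal coefficients are scalars `∑_c ξ^c (symbol of the conjugate by Frob^c)`,
skew-Hermitian if `-1` is a power of two modulo `r`, and the diagonal coefficients are a scalar plus the
Laplacian of the complete graph on `n` vertices whose edges are weighted by the symbols of the differences. The mean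
number of solutions is computed for all bounded `r` together with the symbols over `k`, with Weil's bound, by a
dissection of the set of the `D`; all prime ideals above two are needed, so the orders `r` are weighted by `r`, and the
orders `r` modulo which two has a small order are excluded by the choice of `E`.
-/

set_option autoImplicit false
set_option linter.all false

namespace Pool.Agent.Results.MP_60d5ce_nt.ConstantTowers

open Polynomial Filter Pool.Agent.Y713.Jac
open scoped Classical

/-- The product of the differences `a i - a j`, `i < j`. -/
noncomputable def differences {k : Type} [Field k] {n : ℕ} (a : Fin n → k[X]) : k[X] :=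
  ∏ x ∈ (Finset.univ : Finset (Fin n × Fin n)).filter (fun x => x.1 < x.2), (a x.1 - a x.2)

/-- The monic squarefree polynomials `D` of degree `m` prime to the differences `a i - a j`. -/
def Twists {k : Type} [Field k] {n : ℕ} (a : Fin n → k[X]) (m : ℕ) : Set k[X] :=
  {D | D.Monic ∧ D.natDegree = m ∧ Squarefree D ∧ ∀ i j, i ≠ j → IsCoprime D (a i - a j)}

/-- The polynomial `D(t) ∏ (x - a i)` in `x` over `K = k(t)`. -/
noncomputable def twist {k : Type} [Field k] (K : Type) [Field K] [Algebra k[X] K] {n : ℕ}
    (a : Fin n → k[X]) (D : k[X]) : K[X] :=
  C (algebraMap k[X] K D) * ∏ i, (X - C (algebraMap k[X] K (a i)))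

/-- Every element of the group is the product of an element of order at most 2 and a square. -/
def TorsionTimesSquares (G : Type) [CommGroup G] : Prop := ∀ P : G, ∃ T Q : G, T ^ 2 = 1 ∧ P = T * Q ^ 2

/-- For the Jacobian `J_D` of the twist by `D`, the group `J_D(K)` is `J_D(K)[2] + 2 J_D(K)`, and the
2-primary part of the group of the classes in `H ^ 1 (K, J_D)` which are trivial over the completions of
`K = k(t)` at the places different from infinity is zero. -/
def IsGood {k : Type} [Field k] (K : Type) [Field K] [Algebra k[X] K] [IsFractionRing k[X] K]
    {n : ℕ} (a : Fin n → k[X]) (D : k[X]) : Prop :=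
  ShaPrimaryTrivial 2 (twist K a D) k[X] ∧ TorsionTimesSquares (J 2 (twist K a D) K)

/-- The extension `k'` of `k` has a degree in `E`, prime to the degrees of the prime divisors of the
differences. -/
structure Admissible {k : Type} [Field k] (k' : Type) [Field k'] [Algebra k k'] {n : ℕ} (a : Fin n → k[X])
    (E : Set ℕ) : Prop where
  mem : Module.finrank k k' ∈ E
  coprime : ∀ Q : k[X], Irreducible Q → Q ∣ differences a → Nat.Coprime (Module.finrank k k') Q.natDegree

/-- The curve: `k` is a finite field of characteristic different from two in which `-1` is a square, `n ≥ 3` is odd, the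
differences `a i - a j` have the same degree `N ≥ 1`, and their product over `i < j` is squarefree. -/
structure Family {k : Type} [Field k] {n : ℕ} (a : Fin n → k[X]) (N : ℕ) : Prop where
  two : (2 : k) ≠ 0
  square : IsSquare (-1 : k)
  odd : Odd n
  three : 3 ≤ n
  pos : 1 ≤ N
  degree : ∀ i j, i ≠ j → (a i - a j).natDegree = N
  squarefree : Squarefree (differences a)

/-- The set `E` contains the odd numbers without prime divisors larger than `B`, and all the odd numbers up to
a set of upper density at most `ε`. -/
structure Degrees (E : Set ℕ) (ε : ℝ) (B : ℕ) : Prop where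
  smooth : ∀ e : ℕ, Odd e → (∀ p : ℕ, p.Prime → p ∣ e → p ≤ B) → e ∈ E
  dense : ∀ x : ℕ, (({e | 1 ≤ e ∧ e ≤ x ∧ Odd e ∧ e ∉ E} : Set ℕ).ncard : ℝ) ≤ ε * x

/-- `J_D` is good over the fields `k'(t)` for all the admissible `k'` at the same time. -/
def GoodOverAll {k : Type} [Field k] {n : ℕ} (a : Fin n → k[X]) (E : Set ℕ) (D : k[X]) : Prop :=
  ∀ (k' K' : Type) [Field k'] [Finite k'] [Algebra k k'] [Field K'] [Algebra k'[X] K'] [IsFractionRing k'[X] K'],
    Admissible k' a E → IsGood K' (fun i => (a i).map (algebraMap k k')) (D.map (algebraMap k k'))

section proof

open Pool.Agent.Q269.GR Pool.Agent.Q269.GJ Finset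

theorem good_eq {k : Type} [Field k] (K : Type) [Field K] [Algebra k[X] K] [IsFractionRing k[X] K]
    {n : ℕ} {a : Fin n → k[X]} {D : k[X]} (h : Pool.Agent.Y164.HG.Good K a D) : IsGood K a D := h

end proof

/-- **Theorem.** For `ε > 0` and `B` there are a constant `c > 0` and a set `E`, containing the odd numbers without
prime divisors larger than `B` and all odd numbers up to a set of upper density at most `ε`, such that for all
`k`, `n`, `a` at least the proportion `c` of the twists has rank zero and trivial 2-primary part of the
Tate-Shafarevich group over all the `k'(t)`, `k'` an extension of `k` whose degree is in `E` and prime to the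
degrees of the prime divisors of the differences. -/
theorem result (ε : ℝ) (hε : 0 < ε) (B : ℕ) : ∃ (c : ℝ) (E : Set ℕ), 0 < c ∧ Degrees E ε B ∧
    ∀ (k : Type) [Field k] [Finite k] (n N : ℕ) (a : Fin n → k[X]), Family a N →
      ∀ᶠ m : ℕ in atTop, Odd (m + N) →
        c * ((Twists a m).ncard : ℝ) ≤ (({D ∈ Twists a m | GoodOverAll a E D}).ncard : ℝ) := by
  obtain ⟨c, E, hc, h1, h2, h3⟩ := Pool.Agent.Q269.GJ.main Pool.Agent.Q269.GJ.Asm.b_END
    Pool.Agent.Q269.GJ.Asm.b_EXT Pool.Agent.Q269.GJ.Asm.b_HYM Pool.Agent.Q269.GJ.Asm.b_SMT Pool.Agent.Q269.GJ.Asm.b_DNS
    Pool.Agent.Q269.GR.Asm.a_PRD ε hε B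
  refine ⟨c, {e | e ∈ E ∧ Odd e}, hc, ⟨fun e he hp => ⟨h1 e he hp, he⟩, fun x => ?_⟩, ?_⟩
  · refine le_trans (le_of_eq ?_) (h2 x)
    congr 2
    ext e
    simp only [Set.mem_setOf_eq]
    tauto
  · rintro k _ _ n N a ⟨hk2, hk1, hn, hn3, hN, ha, hs⟩
    letI : Fintype k := Fintype.ofFinite k
    have hchar : ringChar k ≠ 2 := by
      intro h
      apply hk2
      have := ringChar.Nat.cast_ringChar (R := k)
      rw [h] at this
      exact_mod_cast this
    have H : Pool.Agent.Y164.HG.Geo a N := ⟨hchar, hk1, hn, hn3, hN, ha, hs⟩
    filter_upwards [h3 k n a N H] with m hm ho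
    have e1 : (Twists a m).ncard = (Pool.Agent.Q269.GR.Dn (Pool.Agent.Y164.HG.Del a) m).card := by
      rw [← Set.ncard_coe_finset]
      congr 1
      ext D
      rw [Finset.mem_coe]
      exact Pool.Agent.Q269.GJ.mem_tw
    rw [e1]
    refine (hm ho).trans ?_
    rw [← Set.ncard_coe_finset]
    refine Nat.cast_le.2 (Set.ncard_le_ncard ?_ ?_)
    · intro D hD
      rw [Finset.mem_coe, Finset.mem_filter] at hD
      refine ⟨Pool.Agent.Q269.GJ.mem_tw.2 hD.1, ?_⟩
      intro k' K' _ _ _ _ _ _ hadm
      letI : Fintype k' := Fintype.ofFinite k'
      exact good_eq K' (hD.2 k' K' hadm.mem.1 ⟨hadm.mem.2, fun Q _ hi hd => hadm.coprime Q hi hd⟩)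
    · refine Set.Finite.subset (Finset.finite_toSet (Pool.Agent.Q269.GR.Dn (Pool.Agent.Y164.HG.Del a) m)) ?_
      rintro D ⟨hD, -⟩
      exact Finset.mem_coe.2 (Pool.Agent.Q269.GJ.mem_tw.1 hD)

end Pool.Agent.Results.MP_60d5ce_nt.ConstantTowers
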