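import Pool.Agent.Q45.TT.MCls

/-!
# Exact ranks and odd Tate-Shafarevich groups for hyperelliptic Jacobians over towers of quadratic
# extensions of `k(t)`

Let `k` be a field of characteristic different from two (for example a finite field), `g` a monic
polynomial over `k` of odd degree with `g' ≠ 0`, and `J` the Jacobian of the curve `w ^ 2 = g(x) + t`.

Let `K₀` be any field which is obtained from `k(t)` by successive adjunctions of square roots, and
which is ramified, over the affine `t`-line, only over places `b` such that `b(-g(x))` is irreducible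
and separable over `k` (the place `b` is inert in the extension of `k(t)` which is given by a root of
`g(x) + t`). Let `c` be an element of `k` such that `g - c` is separable, the place `t = -c` is inert in
`K₀`, and the irreducible factors `Q₀, …, Q_r` of `g - c` remain irreducible over the residue field of
`K₀` at this place. Put `K = K₀(√(t + c))`; the genus of `K` is not bounded.

Theorem. The `2`-primary part of the Tate-Shafarevich group of `J` over `K` is zero, and the points
`D_i` of `J(K)` given by the divisors `Q_i(x) = 0`, `w = √(t + c)`, `i = 1, …, r` are linearly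
independent over `ℤ` and generate `J(K)` modulo `2 ^ N` for all `N`.

If `k` is finite, then it follows that `J(K)` has the rank `r` and a torsion group of odd order, that
`Ш(J / K)` is finite of odd order (Tate, Milne), and that the full conjecture of Birch and
Swinnerton-Dyer holds for `J / K` (Kato-Trihan): so the `L`-function of `J / K` vanishes at `s = 1`
precisely of order `r`.
-/

set_option autoImplicit false
set_option linter.all false

open Polynomial IsDedekindDomain
open scoped Classical

namespace Pool.Agent.Results.MP_60d5ce_nt.ExactRankOverTowers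

open Pool.Agent.Y160.SL

/-- The elements of `k` as elements of `K`. -/
noncomputable def const (k K : Type) [Field k] [Field K] [Algebra k[X] K] : k →+* K :=
  (algebraMap k[X] K).comp C

/-- The polynomial `f(x) = g(x) + t` over `K`, where `t` is the variable of `k[t]`. -/
noncomputable def fPoly {k : Type} [Field k] (g : k[X]) (K : Type) [Field K] [Algebra k[X] K] : K[X] :=
  g.map (const k K) + C (algebraMap k[X] K X)

/-- The subfield generated by `k(t)` and the elements `s j`, `j < i`. -/
def level (k : Type) [Field k] {K : Type} [Field K] [Algebra k[X] K] (s : ℕ → K) (i : ℕ) :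
    Subfield K :=
  Subfield.closure (Set.range (algebraMap k[X] K) ∪ s '' {j | j < i})

/-- The field `K` is obtained from `k(t)` by successive adjunctions of the square roots `s 0, …,
s (m - 1)`: the square of `s i` is in the field generated by `k(t)` and the elements `s j`, `j < i`. -/
structure IsTowerOfRoots (k : Type) [Field k] (K : Type) [Field K] [Algebra k[X] K] (m : ℕ)
    (s : ℕ → K) : Prop where
  inj : Function.Injective (algebraMap k[X] K)
  sq : ∀ i < m, s i ^ 2 ∈ level k s i
  gen : level k s m = ⊤

/-- The extension `A` of the ring `k[t]` is ramified only over places `b` such that `b(-g(x))` is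
irreducible and separable over `k`. -/
def InertBranching {k : Type} [Field k] (g : k[X]) (A : Type) [CommRing A] [Algebra k[X] A] : Prop :=
  ∀ (v : HeightOneSpectrum A) (b : k[X]), b.Monic → Irreducible b →
    algebraMap k[X] A b ∈ v.asIdeal ^ 2 → Irreducible (b.comp (-g)) ∧ (b.comp (-g)).Separable

/-- The monic polynomials `Q 0, …, Q r` are irreducible over `k` and pairwise different, and their
product is `g - c`. -/
structure IsFactorization {k : Type} [Field k] (g : k[X]) (c : k) {r : ℕ} (Q : Fin (r + 1) → k[X]) :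
    Prop where
  monic : ∀ i, (Q i).Monic
  irreducible : ∀ i, Irreducible (Q i)
  injective : Function.Injective Q
  prod : ∏ i, Q i = g - C c

/-- The ideal of `A` generated by `t + c`. -/
def placeIdeal {k : Type} [Field k] (A : Type) [CommRing A] [Algebra k[X] A] (c : k) : Ideal A :=
  Ideal.span {algebraMap k[X] A (X + C c)}

/-- The map from `k[t]` to the residue ring of `A` at the place `t = -c`. -/
noncomputable def resMap {k : Type} [Field k] (A : Type) [CommRing A] [Algebra k[X] A] (c : k) :
    k[X] →+* A ⧸ placeIdeal A c :=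
  (Ideal.Quotient.mk (placeIdeal A c)).comp (algebraMap k[X] A)

/-- The polynomial `Q` over the residue ring of `A` at the place `t = -c`. -/
noncomputable def atPlace {k : Type} [Field k] (A : Type) [CommRing A] [Algebra k[X] A] (c : k)
    (Q : k[X]) : (A ⧸ placeIdeal A c)[X] := Q.map ((resMap A c).comp C)

/-- The conditions on the tower `K₀`, with the integral closure `A₀` of `k[t]`, and on `c`: the
branching is inert, `t + c` generates a prime ideal of `A₀`, and the `Q i` are irreducible over the
residue field. -/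
structure Conditions {k : Type} [Field k] (g : k[X]) (c : k) {r : ℕ} (Q : Fin (r + 1) → k[X])
    (A₀ : Type) [CommRing A₀] [Algebra k[X] A₀] : Prop where
  branching : InertBranching g A₀
  inert : Prime (algebraMap k[X] A₀ (X + C c))
  residue : ∀ i, Irreducible (atPlace A₀ c (Q i))

/-- The field `K` is the extension `K₀(s)`, where `s ^ 2 = t + c`, of degree two. -/
structure IsRootExtension {k : Type} [Field k] (c : k) (K₀ K : Type) [Field K₀] [Algebra k[X] K₀]
    [Field K] [Algebra K₀ K] (s : K) : Prop where
  sq : s ^ 2 = algebraMap K₀ K (algebraMap k[X] K₀ (X + C c))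
  not_mem : ∀ x : K₀, algebraMap K₀ K x ≠ s
  gen : IntermediateField.adjoin K₀ {s} = ⊤

/-- The ideal of the divisor `u(x) = 0`, `w = v(x)` in the coordinate ring of the affine curve
`w ^ 2 = f(x)`. -/
noncomputable def divIdeal {K : Type} [Field K] (f u v : K[X]) : Ideal (CoordRing 2 f) :=
  Ideal.span {ofPoly 2 f u, wfun 2 f - ofPoly 2 f v}

/-- The ideal `I` of `R` is an invertible module, and `P` is its class in the Picard group. -/
def IsIdealClass {R : Type} [CommRing R] (P : Additive (CommRing.Pic R)) (I : Ideal R) : Prop :=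
  ∃ _ : Module.Invertible R I, P = Additive.ofMul (CommRing.Pic.mk R I)

/-- The element `P` of `J(K) = Pic(K[x, w] / (w ^ 2 - f(x)))` is the class of the ideal of the divisor
`u(x) = 0`, `w = v(x)`. -/
def IsDivisor {K : Type} [Field K] (f u v : K[X]) (P : Jac 2 f K) : Prop :=
  IsIdealClass (R := CoordRing 2 (f.map (algebraMap K K))) P
    (divIdeal (f.map (algebraMap K K)) u v)

/-- The elements `D i` are linearly independent over `ℤ`, and they generate `M` modulo `2 ^ N` for all
`N`. -/
def IsBasisAtTwo {ι M : Type} [AddCommGroup M] (D : ι → M) : Prop :=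
  LinearIndependent ℤ D ∧
    ∀ (N : ℕ) (x : M), ∃ y : M, x - 2 ^ N • y ∈ AddSubgroup.closure (Set.range D)

/-- **The theorem.** -/
def Statement : Prop :=
  ∀ (k : Type) [Field k] (g : k[X]) (c : k) (r : ℕ) (Q : Fin (r + 1) → k[X]), (2 : k) ≠ 0 →
    g.Monic → Odd g.natDegree → derivative g ≠ 0 → (g - C c).Separable → IsFactorization g c Q →
    ∀ (K₀ : Type) [Field K₀] [Algebra k[X] K₀] (m : ℕ) (s₀ : ℕ → K₀), IsTowerOfRoots k K₀ m s₀ →
    ∀ (A₀ : Type) [CommRing A₀] [Algebra k[X] A₀] [Algebra A₀ K₀] [IsScalarTower k[X] A₀ K₀]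
      [IsIntegralClosure A₀ k[X] K₀], Conditions g c Q A₀ →
    ∀ (K : Type) [Field K] [Algebra K₀ K] [Algebra k[X] K] [IsScalarTower k[X] K₀ K] (s : K),
      IsRootExtension (k := k) c K₀ K s →
    ∀ (A : Type) [CommRing A] [IsDedekindDomain A] [Algebra A K] [IsFractionRing A K]
      [Algebra k[X] A] [IsScalarTower k[X] A K] [IsIntegralClosure A k[X] K],
      ShaTriv 2 2 A (fPoly g K) ∧
      ∃ D : Fin r → Jac 2 (fPoly g K) K, IsBasisAtTwo D ∧
        ∀ i, IsDivisor (fPoly g K) ((Q i.succ).map (const k K)) (C s) (D i)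

theorem eq_of_dvd {k : Type} [Field k] {g : k[X]} {c : k} {r : ℕ} {Q : Fin (r + 1) → k[X]}
    (hQ : IsFactorization g c Q) {G : k[X]} (hm : G.Monic) (hi : Irreducible G) (hd : G ∣ g - C c) :
    ∃ i, Q i = G := by
  rw [← hQ.prod] at hd
  obtain ⟨i, -, h⟩ := (hi.prime.dvd_finset_prod_iff _).1 hd
  exact ⟨i, (eq_of_monic_of_associated hm (hQ.monic i) (hi.associated_of_dvd (hQ.irreducible i) h)).symm⟩

theorem ram_of {k : Type} [Field k] {g : k[X]} {A : Type} [CommRing A] [Algebra k[X] A]
    (h : InertBranching g A) : Pool.Agent.Q45.TT.Ram g A := by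
  intro v b hb hbv
  have hl : b.leadingCoeff ≠ 0 := leadingCoeff_ne_zero.2 hb.ne_zero
  have hu : IsUnit (C (b.leadingCoeff⁻¹) : k[X]) := isUnit_C.2 (isUnit_iff_ne_zero.2 (inv_ne_zero hl))
  have hm : (b * C b.leadingCoeff⁻¹).Monic := monic_mul_leadingCoeff_inv hb.ne_zero
  have hi : Irreducible (b * C b.leadingCoeff⁻¹) := (irreducible_mul_isUnit hu).2 hb
  obtain ⟨h1, h2⟩ := h v _ hm hi (by
    rw [map_mul]
    exact Ideal.mul_mem_right _ _ hbv)
  rw [mul_comp, C_comp] at h1 h2
  exact ⟨(irreducible_mul_isUnit hu).1 h1, h2.of_mul_left⟩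

theorem result : Statement := by
  intro k _ g c r Q h2 hg hodd hd hs hQ K₀ _ _ m s₀ hT A₀ _ _ _ _ _ hC K _ _ _ _ s hK A _ _ _ _ _ _ _
  have hfac : Pool.Agent.Q45.TT.IsFacs g c (fun i : Fin r => Q i.succ) (Q 0) := by
    refine ⟨fun i => ⟨hQ.monic _, hQ.irreducible _, ?_, ?_⟩, ?_, ⟨hQ.monic _, hQ.irreducible _, ?_⟩, ?_⟩
    · rw [← hQ.prod]
      exact Finset.dvd_prod_of_mem _ (Finset.mem_univ _)
    · intro h
      exact Fin.succ_ne_zero i (hQ.injective h)
    · intro a b h
      exact Fin.succ_injective _ (hQ.injective h)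
    · rw [← hQ.prod]
      exact Finset.dvd_prod_of_mem _ (Finset.mem_univ _)
    · intro G hm hi hdv hne
      obtain ⟨i, rfl⟩ := eq_of_dvd hQ hm hi hdv
      refine Fin.cases (fun h => absurd rfl h) (fun i _ => ⟨i, rfl⟩) i hne
  have hres : Pool.Agent.Q45.TT.ResIrr g c A₀ := by
    intro G hm hi hdv
    obtain ⟨i, rfl⟩ := eq_of_dvd hQ hm hi hdv
    exact hC.residue i
  have hq : Pool.Agent.Q45.TT.IsQuad (K := K) (algebraMap k[X] K₀ (X + C c)) s := by
    refine ⟨?_, hK.sq, hK.not_mem, hK.gen⟩
    intro h
    apply h2
    apply (Function.Injective.comp hT.inj C_injective : Function.Injective fun x : k =>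
      algebraMap k[X] K₀ (C x))
    show algebraMap k[X] K₀ (C 2) = algebraMap k[X] K₀ (C 0)
    rw [C_0, map_zero, show (C (2 : k) : k[X]) = 2 from rfl, map_ofNat]
    exact h
  obtain ⟨h1, h3⟩ := Pool.Agent.Q45.TT.sha_mark h2 hg hodd hd hq (⟨hT.inj, hT.sq, hT.gen⟩ :
    Pool.Agent.Q45.TT.IsTower k K₀ m s₀) (ram_of hC.branching) hs hC.inert hres (A := A) hfac
  refine ⟨shaTriv_of h1, _, h3, fun i => ?_⟩
  exact Pool.Agent.Q45.TT.mark_cls h2 hg hodd hd hq (⟨hT.inj, hT.sq, hT.gen⟩ :
    Pool.Agent.Q45.TT.IsTower k K₀ m s₀) hs hC.inert hres (hQ.monic _) (hQ.irreducible _) (by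
      rw [← hQ.prod]
      exact Finset.dvd_prod_of_mem _ (Finset.mem_univ _))

end Pool.Agent.Results.MP_60d5ce_nt.ExactRankOverTowers
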