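import Pool.Agent.Q269.DX.Asm
import Pool.Agent.Q269.DY.E
import Pool.Agent.Q269.SX.Avg
import Pool.Agent.Q269.SX.Grp

/-!
# Jacobians over multiquadratic extensions: the joint law of the 2-Selmer orders inside the divisors of almost every polynomial

Let `k` be a finite field of characteristic different from 2 in which `-1` is a square, `K = k(t)`. For each `r` in a finite set let
`n r ≥ 3` be an odd number and let `a r 1, …, a r (n r)` be polynomials over `k` whose differences have the same degree `N r ≥ 1` and a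
squarefree product `Δ r`; suppose that `Δ r` and `Δ r'` are coprime for `r ≠ r'`. For a monic squarefree polynomial `d` prime to all the
`Δ r` let `J(r, d)` be the Jacobian of the curve of genus `(n r - 1) / 2`

`y ^ 2 = d(t) (x - a r 1) ⋯ (x - a r (n r))`

over `K` (elliptic curves for `n r = 3`). We take the tuples `(d 0, d 1, …, d v)` of divisors of ONE polynomial `D`, prime to the
differences, `deg (d 0) + N r` odd, the other degrees even. Then `L = K (√(d 1), …, √(d v))` is an extension in which the infinite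
place splits completely, and up to isogeny of degree a power of 2 the Weil restriction of `J(r, d 0)` from `L` to `K` is the product of
the `2 ^ v` Jacobians `J(r, δ T)`, `δ T` the squarefree part of the product of `d 0` and of the `d i`, `i ∈ T`.

Theorem. There is ONE set `S` of monic squarefree polynomials of density one such that for ALL finite collections of such families and
ALL `v` the following holds, as the degree of `D` in `S` tends to infinity.

(1) For all admissible `d` the groups `J(K) / (J(K)[2] + 2 J(K))` and `Ш'(J)[2]`, `J = J(r, d)`, are finite and the product of their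
orders is `2 ^ (e r)`; `e r = 0` if and only if `J(K) = J(K)[2] + 2 J(K)` and the 2-primary part of `Ш'(J)` is zero. Here `Ш'(J)` is the group of the classes in `H ^ 1 (K, J)` trivial at all places different
from infinity.

(2) There are `2 ^ ((v + 1) (w - 1))` tuples, `w` the number of the prime divisors of `D` prime to the differences; almost all of them
are independent modulo squares, so that `[L : K] = 2 ^ v`.

(3) The mean of every function of at most exponential growth of all the `e (δ T) r` over the tuples tends to its integral for the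
following law: for different `r` independent; for each `r` the parity of `e (δ T) r` is an affine function of the indicator of `T`
(uniformly distributed), and for given parities the `2 ^ v` exponents are independent, with the law `p` conditioned by the parity,
`p(e) = (β / 2) 2 ^ e / ∏_(1 ≤ i ≤ e) (2 ^ i - 1)`, `β = ∏_(i ≥ 0) (1 - 2 ^ (- 2 i - 1))`.

(4) In particular: all the joint moments are those of independent variables; the share of the tuples with `[L : K] = 2 ^ v` and
`e (δ T) r = 0` for all `T` and `r` tends to `(2 ^ (- v - 1) β ^ (2 ^ v)) ^ (number of the r)`: for these the conjecture of Birch and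
Swinnerton-Dyer holds for `J(r, d 0)` over `L` (Tate, Milne, Kato, Trihan); the mean of `∑_T e (δ T) r`, an upper bound for the mean of
the rank of `J(r, d 0)` over `L`, tends to `2 ^ v ρ`, `ρ ≤ 1.2647`.

The case `v = 0` is our `DivisorsOfAlmostEveryPolynomial`, whose method and library are used: the moments of the orders of the kernels
over all the families of divisors, for random symmetric matrices of symbols with given small primes (after
`DivisorsOfAlmostEveryInteger` of helper44 and coauthors); the second moment method; the exact 2-descent for all genera.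
-/

set_option autoImplicit false
set_option linter.all false

namespace Pool.Agent.Results.MP_60d5ce_nt.MultiquadraticExtensions

open Polynomial Filter IsDedekindDomain Pool.Agent.Y713.Jac
open scoped Classical

/-- The product of the differences `a i - a j`, `i < j`. -/
noncomputable def differences {k : Type} [Field k] {n : ℕ} (a : Fin n → k[X]) : k[X] :=
  ∏ x ∈ (Finset.univ : Finset (Fin n × Fin n)).filter (fun x => x.1 < x.2), (a x.1 - a x.2)

/-- The curve: `k` is a finite field of characteristic different from two in which `-1` is a square, `n ≥ 3` is odd, the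
differences `a i - a j` have the same degree `N ≥ 1`, and their product over `i < j` is squarefree. -/
structure Family {k : Type} [Field k] {n : ℕ} (a : Fin n → k[X]) (N : ℕ) : Prop where
  two : (2 : k) ≠ 0
  square : IsSquare (-1 : k)
  odd : Odd n
  three : 3 ≤ n
  pos : 1 ≤ N
  degree : ∀ i j, i ≠ j → (a i - a j).natDegree = N
  squarefree : Squarefree (differences a)

/-- The polynomial `D(t) (x - a 1) ⋯ (x - a n)` in `x` over `K = k(t)`. -/
noncomputable def twist {k : Type} [Field k] (K : Type) [Field K] [Algebra k[X] K] {n : ℕ}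
    (a : Fin n → k[X]) (D : k[X]) : K[X] :=
  C (algebraMap k[X] K D) * ∏ i, (X - C (algebraMap k[X] K (a i)))

/-- The subgroup `J(K)[2] + 2 J(K)` of `J(K)`, `J` the Jacobian of `y ^ 2 = F(x)` over `K`: the group generated by the kernel and the
image of the squaring (multiplicative notation). -/
noncomputable def torsionAndDoubles {K : Type} [Field K] (F : K[X]) : Subgroup (J 2 F K) :=
  (powMonoidHom 2).ker ⊔ (powMonoidHom 2).range

/-- The cocycles with values in `J` which are trivial over the completions of `K = Frac R` at the primes of `R` and whose class is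
killed by two. -/
def LocallyTrivialTwo {K : Type} [Field K] (F : K[X]) (R : Type) [CommRing R] [IsDedekindDomain R] [Algebra R K]
    [IsFractionRing R K] : Type :=
  {c : Cochain 2 F // IsCocycle 2 F c ∧ IsLocallyTrivial 2 F R c ∧ IsCoboundary 2 F (fun σ => c σ ^ 2)}

/-- The number of the classes in `H ^ 1 (K, J)` killed by two which are trivial over the completions of `K` at the primes of `R`. -/
noncomputable def shaOrder {K : Type} [Field K] (F : K[X]) (R : Type) [CommRing R] [IsDedekindDomain R] [Algebra R K]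
    [IsFractionRing R K] : ℕ :=
  Nat.card (Quot fun c c' : LocallyTrivialTwo F R => IsCoboundary 2 F (fun σ => c.1 σ / c'.1 σ))

/-- Both groups are finite and the product of their orders is `M`. -/
structure HasOrder {K : Type} [Field K] (F : K[X]) (R : Type) [CommRing R] [IsDedekindDomain R] [Algebra R K]
    [IsFractionRing R K] (M : ℕ) : Prop where
  order : (torsionAndDoubles F).index * shaOrder F R = M
  points : (torsionAndDoubles F).index ≠ 0
  sha : shaOrder F R ≠ 0

/-- `J(K) = J(K)[2] + 2 J(K)`, and there is no class of order a power of two in `H ^ 1 (K, J)` which is trivial over the completions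
of `K` at the primes of `R`. -/
def Good {K : Type} [Field K] (F : K[X]) (R : Type) [CommRing R] [IsDedekindDomain R] [Algebra R K]
    [IsFractionRing R K] : Prop :=
  (∀ x : J 2 F K, ∃ t y : J 2 F K, t ^ 2 = 1 ∧ x = t * y ^ 2) ∧ ShaPrimaryTrivial 2 F R

/-- The monic squarefree polynomials of degree `m`. -/
def Squarefrees (k : Type) [Field k] (m : ℕ) : Set k[X] := {D | D.Monic ∧ D.natDegree = m ∧ Squarefree D}

/-- Almost all monic squarefree polynomials are in `S`. -/
def DensityOne {k : Type} [Field k] (S : Set k[X]) : Prop :=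
  Tendsto (fun m => ({D ∈ Squarefrees k m | D ∈ S}.ncard : ℝ) / ((Squarefrees k m).ncard : ℝ)) atTop (nhds 1)

/-- `D` runs through the monic squarefree elements of `S`, its degree tends to infinity. -/
def toInfinity {k : Type} [Field k] (S : Set k[X]) : Filter k[X] :=
  comap natDegree atTop ⊓ 𝓟 {D | D ∈ S ∧ D.Monic ∧ Squarefree D}

/-- The monic prime divisors. -/
def primes {k : Type} [Field k] (D : k[X]) : Set k[X] := {P | P.Monic ∧ Irreducible P ∧ P ∣ D}

/-- `d` is prime to the differences of all the families. -/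
def PrimeTo {k : Type} [Field k] {R : Type} {n : R → ℕ} (a : (r : R) → Fin (n r) → k[X]) (d : k[X]) : Prop :=
  ∀ r i j, i ≠ j → IsCoprime d (a r i - a r j)

/-- The monic divisors `d` of `D` prime to the differences of all the families with `deg d + N r` odd for all `r`. -/
def Divisors {k : Type} [Field k] {R : Type} {n : R → ℕ} (a : (r : R) → Fin (n r) → k[X]) (N : R → ℕ) (D : k[X]) :
    Set k[X] :=
  {d | d.Monic ∧ d ∣ D ∧ PrimeTo a d ∧ ∀ r, Odd (d.natDegree + N r)}

/-- The squarefree part of `f`: the product of the monic primes of odd multiplicity. -/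
noncomputable def squarefreePart {k : Type} [Field k] (f : k[X]) : k[X] :=
  ∏ᶠ P ∈ {P : k[X] | P.Monic ∧ Irreducible P ∧ Odd (multiplicity P f)}, P

/-- The tuples `(d 0, …, d v)` of monic divisors of `D` prime to the differences of all the families with `deg (d 0) + N r` odd for
all `r` and `deg (d i)` even for `i ≥ 1`. -/
def Tuples {k : Type} [Field k] {R : Type} {n : R → ℕ} (a : (r : R) → Fin (n r) → k[X]) (N : R → ℕ) (v : ℕ) (D : k[X]) :
    Set (Fin (v + 1) → k[X]) :=
  {d | (∀ i, (d i).Monic ∧ d i ∣ D ∧ PrimeTo a (d i)) ∧ (∀ r, Odd ((d 0).natDegree + N r)) ∧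
    ∀ i : Fin v, Even (d i.succ).natDegree}

/-- The squarefree part of the product of `d 0` and of the `d i`, `i ∈ T`. -/
noncomputable def combine {k : Type} [Field k] {v : ℕ} (d : Fin (v + 1) → k[X]) (T : Finset (Fin v)) : k[X] :=
  squarefreePart (d 0 * ∏ i ∈ T, d i.succ)

/-- `d 1, …, d v` are independent modulo the squares of `K`. -/
def Independent {k : Type} [Field k] (K : Type) [Field K] [Algebra k[X] K] {v : ℕ} (d : Fin (v + 1) → k[X]) : Prop :=
  ∀ T : Finset (Fin v), T.Nonempty → ¬ IsSquare (∏ i ∈ T, algebraMap k[X] K (d i.succ))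

/-- The mean of `f` over the set `S`. -/
noncomputable def mean {α : Type} (S : Set α) (f : α → ℝ) : ℝ := (∑ᶠ D ∈ S, f D) / (S.ncard : ℝ)

/-- The infinite product of the numbers `1 - 2 ^ (- 2 i - 1)`, `i ≥ 0`. -/
noncomputable def beta : ℝ := ∏' i : ℕ, (1 - (1 / 2 : ℝ) ^ (2 * i + 1))

/-- The probability of `e` in the law `p`. -/
noncomputable def law (e : ℕ) : ℝ :=
  beta / 2 * (2 ^ e / ∏ i ∈ Finset.range e, ((2 : ℝ) ^ (i + 1) - 1))

/-- The parity of `x T` is an affine function of the indicator of `T`. -/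
def AffineParity {v : ℕ} (x : Finset (Fin v) → ℕ) : Prop :=
  ∀ T, Even (x T + x ∅ + ∑ i ∈ T, (x {i} + x ∅))

/-- The joint law: independent variables with the law `p` under the condition that the parity is affine. -/
noncomputable def jointLaw {v : ℕ} (x : Finset (Fin v) → ℕ) : ℝ :=
  if AffineParity x then (1 / 2) ^ (v + 1) * ∏ T, (2 * law (x T)) else 0

/-- The mean value of the law `p`. -/
noncomputable def rho : ℝ := ∑' e : ℕ, (e : ℝ) * law e

section proof

open Pool.Agent.Q269.SX Pool.Agent.Y164.HG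
open Pool.Agent.Q269.SL (law2 lawc)

theorem law_eq : law2 = law := by
  funext e
  rw [Pool.Agent.Q269.SL.law2_eq]
  rfl

theorem tad_eq {K : Type} [Field K] (F : K[X]) : torsionAndDoubles F = tsub F := by
  ext x
  unfold torsionAndDoubles
  rw [Subgroup.mem_sup]
  constructor
  · rintro ⟨t, ht, z, ⟨y, rfl⟩, rfl⟩
    exact ⟨t, y, ht, rfl⟩
  · rintro ⟨t, y, ht, rfl⟩
    exact ⟨t, ht, y ^ 2, ⟨y, rfl⟩, rfl⟩

theorem order_of {K : Type} [Field K] {F : K[X]} {R : Type} [CommRing R] [IsDedekindDomain R] [Algebra R K]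
    [IsFractionRing R K] {M : ℕ} (g1 : (tsub F).index * nSh F R = M) (g2 : (tsub F).index ≠ 0) (g3 : nSh F R ≠ 0) :
    HasOrder F R M :=
  ⟨by rw [tad_eq]; exact g1, by rw [tad_eq]; exact g2, g3⟩

theorem geo {k : Type} [Field k] [Fintype k] {n : ℕ} {a : Fin n → k[X]} {N : ℕ} (h : Family a N) : Geo a N := by
  refine ⟨?_, h.square, h.odd, h.three, h.pos, h.degree, h.squarefree⟩
  intro h0
  apply h.two
  have := ringChar.Nat.cast_ringChar (R := k)
  rw [h0] at this
  exact_mod_cast this

theorem rho_eq : rho = Pool.Agent.Q269.AV.rho := by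
  rw [rho, ← law_eq]
  rfl

theorem rho_le : rho ≤ 1.2647 := by
  rw [rho_eq]
  refine Real.tsum_le_of_sum_range_le (fun e => mul_nonneg (Nat.cast_nonneg _) (Pool.Agent.Q269.SL.law2_nonneg e))
    fun n => ?_
  have h1 : ∑ e ∈ Finset.range n, (e : ℝ) * law2 e =
      Pool.Agent.Q269.MF.bet / 2 * ∑ e ∈ Finset.range n, (e : ℝ) * Pool.Agent.Q269.AV.bb e := by
    rw [Finset.mul_sum]
    refine Finset.sum_congr rfl fun e _ => ?_
    rw [Pool.Agent.Q269.AV.law2_bb]
    ring
  rw [h1]
  obtain ⟨h2, h3⟩ := Pool.Agent.Q269.AV.bet_half_le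
  have h4 := mul_le_mul_of_nonneg_left (Pool.Agent.Q269.AV.sum_eb n) h2
  refine h4.trans ?_
  norm_num at h3 ⊢
  linarith

theorem beta_lt : 0.4194 < beta := Pool.Agent.Y948.CQ.t_C2.2.2.2.1

theorem joint_eq (v : ℕ) : (Pool.Agent.Q269.DY.jl : (Finset (Fin v) → ℕ) → ℝ) = jointLaw := by
  funext x
  unfold Pool.Agent.Q269.DY.jl jointLaw
  rw [law_eq]
  rfl

theorem law_zero : 2 * law 0 = beta := by
  unfold law
  rw [Finset.prod_range_zero, pow_zero, div_one, mul_one]
  ring

end proof

open Pool.Agent.Q269.SX Pool.Agent.Y164.HG Pool.Agent.Q269.DX Pool.Agent.Q269.DY in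
/-- **Theorem.** -/
theorem result (k : Type) [Field k] [Finite k] (h2 : (2 : k) ≠ 0) (hs : IsSquare (-1 : k)) (K : Type) [Field K]
    [Algebra k[X] K] [IsFractionRing k[X] K] :
    HasSum law 1 ∧ (∀ v : ℕ, HasSum (jointLaw : (Finset (Fin v) → ℕ) → ℝ) 1) ∧ 0.4194 < beta ∧ rho ≤ 1.2647 ∧
    ∃ S : Set k[X], DensityOne S ∧ (∀ c : ℕ, ∀ᶠ D in toInfinity S, c ≤ (primes D).ncard) ∧
      ∀ (l : ℕ) (n N : Fin (l + 1) → ℕ) (a : (r : Fin (l + 1)) → Fin (n r) → k[X]), (∀ r, Family (a r) (N r)) →
        (∀ r r', r ≠ r' → IsCoprime (differences (a r)) (differences (a r'))) → (∀ r r', Even (N r + N r')) →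
        ∃ e : k[X] → Fin (l + 1) → ℕ,
          (∀ d : k[X], d.Monic → Squarefree d → PrimeTo a d → (∀ r, Odd (d.natDegree + N r)) → ∀ r,
            HasOrder (twist K (a r) d) k[X] (2 ^ e d r) ∧ (e d r = 0 ↔ Good (twist K (a r) d) k[X])) ∧
          ∀ v : ℕ,
            (∀ D : k[X], D.Monic → Squarefree D → ∀ d ∈ Tuples a N v D, ∀ T, combine d T ∈ Divisors a N D) ∧
            (∀ᶠ D in toInfinity S, 2 ^ (v + 1) * (Tuples a N v D).ncard =
              2 ^ ((v + 1) * {P ∈ primes D | PrimeTo a P}.ncard)) ∧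
            (∀ (f : (Fin (l + 1) → Finset (Fin v) → ℕ) → ℝ) (u : ℕ) (C : ℝ),
              (∀ x, |f x| ≤ C * ∏ r, ∏ T, ((2 : ℝ) ^ u) ^ x r T) →
              Summable (fun x : Fin (l + 1) → Finset (Fin v) → ℕ => f x * ∏ r, jointLaw (x r)) ∧
              Tendsto (fun D => mean (Tuples a N v D) fun d => f fun r T => e (combine d T) r) (toInfinity S)
                (nhds (∑' x : Fin (l + 1) → Finset (Fin v) → ℕ, f x * ∏ r, jointLaw (x r)))) ∧
            (∀ u : Fin (l + 1) → Finset (Fin v) → ℕ,
              Tendsto (fun D => mean (Tuples a N v D) fun d => ∏ r, ∏ T, ((2 : ℝ) ^ e (combine d T) r) ^ u r T)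
                (toInfinity S) (nhds (∏ r, ∏ T, ∏ i ∈ Finset.range (u r T), (1 + (2 : ℝ) ^ (i + 1))))) ∧
            Tendsto (fun D => mean (Tuples a N v D) fun d => if Independent K d then 1 else 0) (toInfinity S) (nhds 1) ∧
            Tendsto (fun D => mean (Tuples a N v D) fun d =>
              if Independent K d ∧ ∀ r T, Good (twist K (a r) (combine d T)) k[X] then 1 else 0) (toInfinity S)
              (nhds (((1 / 2) ^ (v + 1) * beta ^ 2 ^ v) ^ (l + 1))) ∧
            ∀ r, Tendsto (fun D => mean (Tuples a N v D) fun d => ∑ T, (e (combine d T) r : ℝ)) (toInfinity S)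
              (nhds (2 ^ v * rho)) := by
  let _ : Fintype k := Fintype.ofFinite k
  have hPRD := Pool.Agent.Q269.GR.Asm.a_PRD
  have hKDR := Pool.Agent.Q269.SX.Asm.d_KDR
  have hCLN := Pool.Agent.Q269.DX.Asm.e_CLN
  have hk : ringChar k ≠ 2 := by
    intro h0
    apply h2
    have := ringChar.Nat.cast_ringChar (R := k)
    rw [h0] at this
    exact_mod_cast this
  obtain ⟨S₀, hS1, hS2, hS3⟩ := one_setW Pool.Agent.Q269.DX.Asm.e_ANA Pool.Agent.Q269.DX.Asm.e_INN
    Pool.Agent.Q269.DX.Asm.e_SPN hPRD hk hs
  have hfil : toInfinity {D | S₀ D} = lS S₀ := (lS_eq S₀).symm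
  refine ⟨?_, ?_, beta_lt, rho_le, {D | S₀ D}, ?_, ?_, ?_⟩
  · rw [← law_eq]
    exact hasSum_law2
  · intro v
    rw [← joint_eq]
    exact hasSum_jl
  · have h1 := dens hPRD hk hs hS1
    refine h1.congr fun m => ?_
    have e1 : Squarefrees k m = ((Pool.Agent.Q269.GR.Dn (1 : k[X]) m : Finset k[X]) : Set k[X]) := by
      ext D
      rw [Finset.mem_coe, Pool.Agent.Q269.DX.mem_one, and_assoc]
      rfl
    have e2 : {D ∈ Squarefrees k m | D ∈ {D | S₀ D}} =
        (((Pool.Agent.Q269.GR.Dn (1 : k[X]) m).filter fun D => S₀ D : Finset k[X]) : Set k[X]) := by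
      rw [e1]
      ext D
      rw [Finset.mem_coe, Finset.mem_filter]
      rfl
    rw [e2, e1, Set.ncard_coe_finset, Set.ncard_coe_finset]
  · intro c
    rw [hfil]
    filter_upwards [hS2 c, lS_mem S₀] with D h1 h3
    have e1 : primes D = ((Pool.Agent.Q269.GR.pr D : Finset k[X]) : Set k[X]) := pr_eq hPRD h3
    rw [e1, Set.ncard_coe_finset]
    exact h1
  intro l n N a h hc hN
  have H : ∀ r, Geo (a r) (N r) := fun r => geo (h r)
  have hc' : ∀ r r', r ≠ r' → IsCoprime (Del (a r)) (Del (a r')) := hc
  obtain ⟨c, hcc⟩ : ∃ c : ZMod 2, ∀ r, c + (N r : ZMod 2) = 1 := by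
    refine ⟨1 + (N 0 : ZMod 2), fun r => ?_⟩
    have h3 := (ZMod.natCast_eq_zero_iff_even).2 (hN 0 r)
    rw [Nat.cast_add] at h3
    rw [add_assoc, h3, add_zero]
  have P1 : ∀ d : k[X], d.Monic → Squarefree d → PrimeTo a d → (∀ r, Odd (d.natDegree + N r)) → ∀ r,
      HasOrder (twist K (a r) d) k[X] (2 ^ ex (H r) d) ∧ (ex (H r) d = 0 ↔ Good (twist K (a r) d) k[X]) := by
    intro d hd1 hd2 hd3 ho r
    have hD : d ∈ Pool.Agent.Q269.GR.Dn (∏ r, Del (a r)) d.natDegree :=
      Pool.Agent.Q269.GR.mem_Dn'.2 ⟨⟨hd1, rfl⟩, hd2, cop_iff.2 hd3⟩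
    have hD' : d ∈ Pool.Agent.Q269.GR.Dn (Del (a r)) d.natDegree := mem_of hD r
    have h4 := exact_kD (K := K) (H r) Asm.d_SEL Asm.d_BDX hKDR d.natDegree (ho r) d hD'
    rw [(kD_pow (H r) hKDR (ho r) hD').1] at h4
    obtain ⟨g1, g2, g3⟩ := Asm.d_CRD K _ k[X] _ h4 (by positivity)
    refine ⟨order_of g1 g2 g3, ?_⟩
    · have h5 : Good (twist K (a r) d) k[X] ↔ Pool.Agent.Q269.SL.BoundedBy (cur K (a r) d) k[X] 1 := by
        rw [bounded_one]
        exact ⟨fun g => ⟨g.2, g.1⟩, fun g => ⟨g.2, g.1⟩⟩
      show ex (H r) d = 0 ↔ _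
      rw [h5, h4 1]
      constructor
      · intro h0
        rw [h0, pow_zero]
      · intro h0
        by_contra hne
        have h6 := Nat.one_lt_two_pow hne
        omega
  have hDv : ∀ D : k[X], D ∈ Pool.Agent.Q269.GR.Dn (1 : k[X]) D.natDegree →
      Divisors a N D = ((dva H c (dp (∏ r, Del (a r)) D) : Finset k[X]) : Set k[X]) := fun D hD =>
    dvS_eq H hPRD hKDR hD c 0 hcc
  refine ⟨fun d r => ex (H r) d, P1, fun v => ?_⟩
  have hTup : ∀ D : k[X], D ∈ Pool.Agent.Q269.GR.Dn (1 : k[X]) D.natDegree →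
      Tuples a N v D = ((Tu a v c (dp (∏ r, Del (a r)) D) : Finset _) : Set _) := fun D hD =>
    tuS_eq H hPRD hD c 0 hcc
  have hNice : Nice H (eT (v := v)) (Filter.map (dp (∏ r, Del (a r))) (lS S₀)) := by
    have E := Fintype.equivFin (Finset (Fin v))
    exact nice_equiv E.symm eT (hS3 (l + 1) n a N H hc' (v + 1) _ (fun j => eT (E.symm j))
      (eT_inj.comp E.symm.injective) fun j => eT_ne _)
  have conv : ∀ (F : (Fin (v + 1) → k[X]) → ℝ) (L : ℝ), Tendsto (fun D => (∑ d ∈ Tu a v c D, F d) / ((Tu a v c D).card : ℝ))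
      (Filter.map (dp (∏ r, Del (a r))) (lS S₀)) (nhds L) →
      Tendsto (fun D => mean (Tuples a N v D) F) (toInfinity {D | S₀ D}) (nhds L) := by
    intro F L hF
    rw [tendsto_map'_iff] at hF
    rw [hfil]
    refine hF.congr' ?_
    filter_upwards [lS_mem S₀] with D hD
    unfold mean
    rw [hTup D hD]
    exact (mean_coe' _ _).symm
  have memD : ∀ D : k[X], D ∈ Pool.Agent.Q269.GR.Dn (1 : k[X]) D.natDegree → ∀ d ∈ Tuples a N v D, ∀ T,
      combine d T ∈ Divisors a N D := by
    intro D hD d hd T
    rw [hTup D hD, Finset.mem_coe] at hd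
    have hD' := dp_mem (Δ := ∏ r, Del (a r)) hPRD hD
    unfold Tu at hd
    obtain ⟨τ, hτ, rfl⟩ := Finset.mem_image.1 hd
    rw [hDv D hD, Finset.mem_coe]
    have h1 : combine (DD τ) T = dv (eT T) τ := sqp_DD hPRD (prd_ne H) hD' τ T
    rw [h1]
    exact part_mem H hPRD hKDR hD' c τ hτ T
  have hP : ∀ D : k[X], D ∈ Pool.Agent.Q269.GR.Dn (1 : k[X]) D.natDegree → ∀ d ∈ Tuples a N v D,
      (exs H d = 0 ↔ ∀ r T, Good (twist K (a r) (combine d T)) k[X]) := by
    intro D hD d hd
    have hsq : Squarefree D := (Pool.Agent.Q269.DX.mem_one.1 hD).2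
    have h3 : ∀ r T, (ex (H r) (combine d T) = 0 ↔ Good (twist K (a r) (combine d T)) k[X]) := by
      intro r T
      have h4 := memD D hD d hd T
      exact (P1 _ h4.1 (hsq.squarefree_of_dvd h4.2.1) h4.2.2.1 h4.2.2.2 r).2
    constructor
    · intro h r T
      exact (h3 r T).1 (congrFun (congrFun h r) T)
    · intro h
      funext r T
      exact (h3 r T).2 (h r T)
  have hω : ∀ K' : ℕ, ∀ᶠ D in Filter.map (dp (∏ r, Del (a r))) (lS S₀), K' ≤ Fintype.card (Pool.Agent.Q269.GJ.Ip D) := by
    intro K'
    rw [eventually_map]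
    filter_upwards [hS2 (K' + (Pool.Agent.Q269.GR.pr (∏ r, Del (a r))).card), lS_mem S₀] with D h1 h3
    have h4 := (card_dp hPRD (prd_ne H) h3).2
    rw [card_Ip]
    omega
  have hdep := dep_Tu H hCLN hPRD hNice c hω (Independent K) fun d hd => by
    unfold Independent at hd
    push Not at hd
    obtain ⟨T, hT, h1⟩ := hd
    refine ⟨T, hT, sq_iff (K := K) _ ?_⟩
    rw [map_prod]
    exact h1
  refine ⟨fun D h1 h3 d hd T => memD D (Pool.Agent.Q269.DX.mem_one.2 ⟨⟨h1, rfl⟩, h3⟩) d hd T, ?_, ?_, ?_, ?_, ?_, ?_⟩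
  · rw [hfil]
    have hspn := hNice.spn
    rw [eventually_map] at hspn
    filter_upwards [lS_mem S₀, hspn] with D hD1 hsp
    have hD' := dp_mem (Δ := ∏ r, Del (a r)) hPRD hD1
    have e4 : {P ∈ primes D | PrimeTo a P} = ((Pool.Agent.Q269.GR.pr (dp (∏ r, Del (a r)) D) : Finset k[X]) : Set k[X]) :=
      prc_eq H hPRD hD1
    have h5 := Al_num (v := v) hCLN hsp c
    rw [e4, Set.ncard_coe_finset, hTup D hD1, Set.ncard_coe_finset, Tu_card H hPRD hD', ← card_Ip, ← h5]
    ring
  · intro f u C hf
    obtain ⟨g1, -, g3⟩ := mean_Tu H hCLN hPRD hKDR hNice c hcc f u C hf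
    unfold LL at g3
    rw [joint_eq] at g1 g3
    exact ⟨g1, conv _ _ g3⟩
  · intro u
    exact conv _ _ (mom_Tu H hCLN hPRD hKDR hNice c hcc u)
  · have h1 := and_Tu c (Independent K) (fun _ => True) _ 1 hdep (one_Tu H hCLN hPRD hNice c)
    refine conv _ _ (h1.congr fun D => ?_)
    congr 1
    refine Finset.sum_congr rfl fun d _ => ?_
    by_cases h : Independent K d
    · rw [if_pos h, if_pos ⟨h, trivial⟩]
    · rw [if_neg h, if_neg fun h' => h h'.1]
  · have h1 := zero_Tu H hCLN hPRD hKDR hNice c hcc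
    rw [law_eq, law_zero, Fintype.card_fin] at h1
    have h3 := and_Tu c (Independent K) (fun d => exs H d = 0) _ _ hdep h1
    have h4 := conv _ _ h3
    rw [hfil] at h4 ⊢
    refine h4.congr' ?_
    filter_upwards [lS_mem S₀] with D hD
    unfold mean
    congr 1
    rw [hTup D hD, finsum_mem_coe_finset, finsum_mem_coe_finset]
    refine Finset.sum_congr rfl fun d hd => ?_
    have hd' : d ∈ Tuples a N v D := by
      rw [hTup D hD]
      exact hd
    have h5 := hP D hD d hd'
    by_cases h6 : Independent K d ∧ exs H d = 0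
    · rw [if_pos h6, if_pos ⟨h6.1, h5.1 h6.2⟩]
    · rw [if_neg h6, if_neg fun h7 => h6 ⟨h7.1, h5.2 h7.2⟩]
  · intro r
    have h1 := rho_Tu H hCLN hPRD hKDR hNice c hcc r
    rw [← rho_eq] at h1
    exact conv _ _ h1

end Pool.Agent.Results.MP_60d5ce_nt.MultiquadraticExtensions
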