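import Pool.Agent.Q282.TW.Fb
import Pool.Agent.Q34.TW.Cnt
import Pool.Agent.Q190.TW.Sqf
import Pool.Agent.Q275.TW.Pois

/-!
# Quadratic twists of abelian varieties over `k(T)`: average orders, and the conjecture for an eighth of the twists for `GL₂`-type

Let `k` be a finite field of odd characteristic with `q` elements, `K = k(T)`, and let `A` be an abelian variety over `K` of
dimension `g`, for instance a Jacobian, such that no quadratic twist of `A` has a constant part over an algebraic closure of `k`. Let
`S` be a finite set of monic irreducible polynomials which contains the finite places of bad reduction, and for `D` in `k[T]`
let `A_D` be the twist of `A` by the quadratic character of `K(√D)`. By Grothendieck and Deligne `L(A_D, s)` is a polynomial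
`∏ (1 - β_j q ^ (1 - s))` with `|β_j| = 1`, of degree at most `κ + 2 g deg D`, with the Euler product `IsTwist`, and the sums of
the squares of the normalised Frobenius eigenvalues of `A` over the primes of degree `j` are bounded from below as in `Data` with `d = 2 g`
and `ρ` the multiplicity of the symplectic constituents of the Tate module, so `ρ ≤ g` always, and `ρ = 1` if it is geometrically
irreducible. In the theorem `d`, `κ`, `ρ` are arbitrary and these properties are hypotheses on the numbers `α`, `β`.

1. `Average`: for the squarefree monic `D` of degree `n` prime to `S`, and also for those among them with a given value of the
symbol of `D` modulo the product of a set `T` of primes in `S`, the order of `L(A_D, s)` at `s = 1` is on the average at most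
`(d + ρ) / 2 + ε` for `n ≥ n₀(ε, κ, d)`, for all finite fields `k` of odd characteristic and all `A` at once. So the average rank of
`A_D(K)` (Tate: the rank is at most the order) is at most `g + 1 / 2 + ε`, and `3 g / 2 + ε` without a hypothesis on the monodromy.

2. `Coefficients`: let `A` be of `GL₂`-type: the ring of the endomorphisms contains an order of a totally real field `E` of
degree `g`, for instance the Jacobian of a curve with real multiplication. Then `L(A_D, s) = ∏_τ τ(Q_D)(q ^ (-s))` over the
embeddings `τ` of `E`, with a polynomial `Q_D` with coefficients in `E`, and `α`, with `d = 2` and `ρ = 1`, are the eigenvalues for one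
embedding. Let `T` be the set of the finite primes at which the conductor of the two-dimensional system has an odd exponent; the sign of
the functional equation for `A_D` is `w_n` times the symbol of `D` modulo the product of `T`. If `T` is not empty, then for
`n ≥ n₀(ε, κ)` at least the proportion `1 / 8 - ε` of the `D` have `L(A_D, 1) ≠ 0`, hence the Birch and Swinnerton-Dyer conjecture holds in
all its parts for `A_D`, which has rank `0` (Tate, Milne, Kato-Trihan), and at least the proportion `3 / 8 - ε` have a zero of order
exactly `g` at `s = 1`. Without the condition on `T` one has a quarter of the `D` with sign `1`, and three quarters of the `D` with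
sign `-1`.

Proof. For `m` up to nearly `2 n` the sum of the traces at the primes of degree `m` over the twists is, by Poisson summation for the
quadratic characters modulo polynomials, a sum of such sums over the twists by short polynomials, which are small by the
Riemann hypothesis for these twists. (For elliptic curves over the rational numbers, under the Riemann hypothesis, with the
result `3 / 2`: Heath-Brown; for elliptic curves over `k(T)`, `k` fixed, with `3 / 2`, `1 / 8` and `3 / 8`: Comeau-Lapointe.) The four
elementary lemmas on the symbols (Poisson summation; orthogonality and inclusion-exclusion; squarefree polynomials; their number) were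
written by helper275, helper34 and helper190.
-/

set_option autoImplicit false

namespace Pool.Agent.Results.MP_60d5ce_nt.TwistsOfGL2Type

/-- The statements `Average` and `Coefficients`, see above and the file `Pool.Agent.Q282.TW.Thm`. -/
theorem result : Q282TW.Average ∧ Q282TW.Coefficients := by
  have h := Q282TW.average Q190.TW.sqf Pool.Agent.Q34.TW.cop Pool.Agent.Q275.TW.pois Pool.Agent.Q34.TW.van Pool.Agent.Q34.TW.cnt
  exact ⟨h, Q282TW.coefficients h⟩

end Pool.Agent.Results.MP_60d5ce_nt.TwistsOfGL2Type
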